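import Pool.Agent.Helper79.GT.St2

/-! Module INV of project GT (MP_c2d095_lc): the corresponding states. -/

set_option autoImplicit false

namespace Pool.Agent.Helper14.GT

open Pool.Agent.Helper19.SK Pool.Agent.Helper79.GS Pool.Agent.Helper79.GT

private theorem rch_trans {P : Type} {A : Arena P} {b x y : P} {k l : ℕ} (h1 : Rch A b k x)
    (h2 : Rch A x l y) : ∃ m, Rch A b m y := by
  induction h2 with
  | refl => exact ⟨k, h1⟩
  | rev l c x' y' _ hm hr ih =>
    obtain ⟨m, hm'⟩ := ih
    exact ⟨m, Rch.rev m c x' y' hm' hm hr⟩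
  | irr l c x' y' _ hm hr ih =>
    obtain ⟨m, hm'⟩ := ih
    exact ⟨m + 1, Rch.irr m c x' y' hm' hm hr⟩

/-- adding one corresponding situation -/
private theorem inv_step {P : Type} {A : Gm P} {D : Bool → Bool → P → P → Prop} {sk : Bool}
    {g M B : ℕ} {d₀ : ℤ} {H₀ : Set (Bool × P)} {a₀ : P × Fin M} {H : Set (Bool × P)}
    {H' : Set (Bool × ((P × Fin M) ⊕ Bool))} {a a' : P × Fin M} (t : Bool)
    (h : Inv A D sk g M B d₀ H₀ a₀ H H' a)
    (h1 : ∃ k, Rch (wA A D g M B d₀) (Sum.inl a₀) k (Sum.inl a'))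
    (h2 : ∃ k, Rch (wA A D g M B d₀) (Sum.inl a) k (Sum.inl a')) :
    Inv A D sk g M B d₀ H₀ a₀ (insert (t, a'.1) H) (insert (t, Sum.inl a') H') a' := by
  refine ⟨?_, ?_, ?_, ?_, h1⟩
  · intro s x hx
    rcases Set.mem_insert_iff.1 hx with he | he
    · rw [Prod.mk.injEq, Sum.inl.injEq] at he
      left
      rw [he.1, he.2]
      exact Set.mem_insert _ _
    · rcases h.i1 s x he with h3 | ⟨h3, h4⟩
      · exact Or.inl (Set.mem_insert_of_mem _ h3)
      · exact Or.inr ⟨h3, Set.mem_insert_of_mem _ h4⟩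
  · intro s x hx
    rcases Set.mem_insert_iff.1 hx with he | he
    · rw [Prod.mk.injEq] at he
      right
      refine ⟨a', he.2.symm, ?_, h1, 0, Rch.refl⟩
      rw [he.1]
      exact Set.mem_insert _ _
    · rcases h.i2 s x he with h3 | ⟨z, h3, h4, h5, k, h6⟩
      · exact Or.inl h3
      · obtain ⟨l, hl⟩ := h2
        exact Or.inr ⟨z, h3, Set.mem_insert_of_mem _ h4, h5, rch_trans h6 hl⟩
  · intro z hz
    exact Set.mem_insert_of_mem _ (h.i3 z hz)
  · intro s c hx
    rcases Set.mem_insert_iff.1 hx with he | he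
    · rw [Prod.mk.injEq] at he
      exact absurd he.2 (by simp)
    · exact h.i4 s c he

/-- Module INV. -/
theorem hINV (hKEY : StKEY) (hWIN : StWIN) : Pool.Agent.Helper79.GT.StINV := by
  intro P A D pt g N B R d₀ sk H₀ hK hB b₀ hBd
  refine ⟨?_, ?_⟩
  · intro c₀
    refine ⟨?_, ?_, ?_, ?_, 0, Rch.refl⟩
    · intro s x hx
      rcases Set.mem_insert_iff.1 hx with he | ⟨a, ha, he⟩
      · rw [Prod.mk.injEq, Sum.inl.injEq] at he
        left
        rw [he.1, he.2]
        exact Set.mem_insert _ _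
      · have hxa : x = a := Sum.inl.inj ha
        rw [hxa]
        rcases he with he | ⟨h1, he⟩
        · exact Or.inl (Set.mem_insert_of_mem _ he)
        · exact Or.inr ⟨h1, Set.mem_insert_of_mem _ he⟩
    · intro s x hx
      rcases Set.mem_insert_iff.1 hx with he | he
      · rw [Prod.mk.injEq] at he
        right
        refine ⟨(b₀, ⟨B, by omega⟩), he.2.symm, ?_, ⟨0, Rch.refl⟩, 0, Rch.refl⟩
        rw [he.1]
        exact Set.mem_insert _ _
      · exact Or.inl he
    · intro z hz
      exact Set.mem_insert_of_mem _ hz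
    · intro s c hx
      rcases Set.mem_insert_iff.1 hx with he | ⟨a, ha, _⟩
      · rw [Prod.mk.injEq] at he
        exact absurd he.2 (by simp)
      · exact absurd ha (by simp)
  · intro H H' a hI
    refine ⟨fun c => inv_step (!c) hI hI.i5 ⟨0, Rch.refl⟩, ?_⟩
    intro c b' hu
    obtain ⟨k, hk⟩ := hI.i5
    obtain ⟨j, hj, hmv, k', _, hk', l, _, hl⟩ :=
      hWIN P A D pt g N B R d₀ hK hB b₀ hBd a k hk c b' hu
    refine ⟨j, hj, hmv, ?_, ?_⟩
    · have key : ∀ s, (s, b') ∈ H → (s, (Sum.inl (b', j) : (P × Fin (2 * B + 1)) ⊕ Bool)) ∈ H' := by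
        intro s hs
        rcases hI.i2 s b' hs with h3 | ⟨z, h3, h4, ⟨k1, h5⟩, k2, h6⟩
        · exact hI.i3 _ ⟨(b', j), rfl, Or.inl h3⟩
        · obtain ⟨m, hm⟩ := rch_trans h6 hl
          have := hKEY P A D pt g N (2 * B + 1) B R d₀ hK (b₀, ⟨B, by omega⟩) hBd z (b', j) k1 m h5
            hm h3.symm
          rw [this]
          exact h4
      unfold okk
      by_cases hsk : sk = true
      · rw [if_pos hsk, if_pos hsk]
        constructor
        · intro h1 h2
          rcases hI.i1 _ _ h2 with h3 | ⟨h3, _⟩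
          · exact h1 h3
          · rw [hsk] at h3
            exact absurd h3 (by simp)
        · intro h1 h2
          exact h1 (key _ h2)
      · rw [if_neg hsk, if_neg hsk]
        constructor
        · intro h1 s h2
          rcases hI.i1 _ _ h2 with h3 | ⟨_, h3⟩
          · exact h1 s h3
          · exact h1 _ h3
        · intro h1 s h2
          exact h1 s (key s h2)
    · intro _
      exact inv_step (!c) hI ⟨k', hk'⟩ ⟨l, hl⟩

end Pool.Agent.Helper14.GT
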